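import Mathlib

/-!
# Fricke trace polynomials of words in the free group on two generators
-/

set_option autoImplicit false

namespace Pool.Agent.Q227.FR

open Matrix

/-- The group `SL(2, ℂ)`. -/
abbrev SL2 := Matrix.SpecialLinearGroup (Fin 2) ℂ

/-- The trace of an element of `SL(2, ℂ)`. -/
noncomputable def tr (A : SL2) : ℂ := (A : Matrix (Fin 2) (Fin 2) ℂ).trace

/-- The homomorphism `w ↦ w(A, B)` from the free group on two generators `a = of 0`, `b = of 1`. -/
noncomputable def ev (A B : SL2) : FreeGroup (Fin 2) →* SL2 := FreeGroup.lift ![A, B]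

/-- `f` is the Fricke trace polynomial of `w`: `Tr w(A, B) = f (Tr A, Tr B, Tr AB)` for all
`A`, `B` in `SL(2, ℂ)`. -/
def IsFricke (w : FreeGroup (Fin 2)) (f : MvPolynomial (Fin 3) ℤ) : Prop :=
  ∀ A B : SL2, tr (ev A B w) = MvPolynomial.aeval ![tr A, tr B, tr (A * B)] f

/-- `n` is the cyclically reduced length of `w`: the length of a cyclically reduced word which
represents an element conjugate to `w`. -/
def HasCycLen (w : FreeGroup (Fin 2)) (n : ℕ) : Prop :=
  ∃ L : List (Fin 2 × Bool), FreeGroup.IsCyclicallyReduced L ∧ L.length = n ∧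
    IsConj (FreeGroup.mk L) w

/-- The total binary size of the nonzero coefficients. -/
noncomputable def bitSize (f : MvPolynomial (Fin 3) ℤ) : ℕ :=
  ∑ m ∈ f.support, (f.coeff m).natAbs.size

/-- `S(n)`: the largest size of the Fricke trace polynomial of a word of cyclically reduced
length `n`. -/
noncomputable def S (n : ℕ) : ℕ :=
  sSup {s | ∃ w f, HasCycLen w n ∧ IsFricke w f ∧ bitSize f = s}

end Pool.Agent.Q227.FR
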