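import Pool.Agent.Q227.FR.Upper

/-!
# The Fricke polynomials of `a ^ p b ^ q (a b) ^ r` have `Ω(n ^ 4)` bits
-/

set_option autoImplicit false

namespace Pool.Agent.Q227.FR

open Matrix Polynomial

/-- `s n = U_{n-1}(X / 2)`. -/
noncomputable def s : ℕ → ℤ[X]
  | 0 => 0
  | 1 => 1
  | n + 2 => X * s (n + 1) - s n

theorem s_zero : s 0 = 0 := by rw [s]
theorem s_one : s 1 = 1 := by rw [s]
theorem s_add_two (n : ℕ) : s (n + 2) = X * s (n + 1) - s n := by rw [s]

theorem s_coeff_of_le (n : ℕ) : ∀ i, n ≤ i → (s n).coeff i = 0 := by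
  induction n using Nat.twoStepInduction with
  | zero => intro i _; simp [s_zero]
  | one => intro i hi; rw [s_one, coeff_one, if_neg (by omega)]
  | more n h1 h2 =>
    intro i hi
    obtain ⟨j, rfl⟩ : ∃ j, i = j + 1 := ⟨i - 1, by omega⟩
    rw [s_add_two, coeff_sub, coeff_X_mul, h2 j (by omega), h1 (j + 1) (by omega), sub_zero]

theorem s_coeff_even (n : ℕ) : ∀ i a, n = i + 2 * a → (s n).coeff i = 0 := by
  induction n using Nat.twoStepInduction with
  | zero => intro i a _; simp [s_zero]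
  | one => intro i a h; rw [s_one, coeff_one, if_neg (by omega)]
  | more n h1 h2 =>
    intro i a h
    rw [s_add_two, coeff_sub]
    rcases Nat.eq_zero_or_pos a with rfl | ha
    · have e1 : (s n).coeff i = 0 := s_coeff_of_le n i (by omega)
      obtain ⟨j, rfl⟩ : ∃ j, i = j + 1 := ⟨i - 1, by omega⟩
      rw [coeff_X_mul, e1, s_coeff_of_le (n + 1) j (by omega), sub_zero]
    · rw [h1 i (a - 1) (by omega), sub_zero]
      rcases Nat.eq_zero_or_pos i with rfl | hi
      · rw [coeff_X_mul_zero]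
      · obtain ⟨j, rfl⟩ : ∃ j, i = j + 1 := ⟨i - 1, by omega⟩
        rw [coeff_X_mul, h2 j a (by omega)]

theorem s_coeff (n : ℕ) : ∀ i a, n = i + 2 * a + 1 →
    (s n).coeff i = (-1) ^ a * ((i + a).choose a : ℤ) := by
  induction n using Nat.twoStepInduction with
  | zero => intro i a h; omega
  | one =>
    intro i a h
    obtain ⟨rfl, rfl⟩ : i = 0 ∧ a = 0 := by omega
    simp [s_one]
  | more n h1 h2 =>
    intro i a h
    rw [s_add_two, coeff_sub]
    rcases Nat.eq_zero_or_pos a with rfl | ha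
    · have e1 : (s n).coeff i = 0 := s_coeff_of_le n i (by omega)
      obtain ⟨j, rfl⟩ : ∃ j, i = j + 1 := ⟨i - 1, by omega⟩
      rw [coeff_X_mul, e1, h2 j 0 (by omega)]
      simp
    · obtain ⟨b, rfl⟩ : ∃ b, a = b + 1 := ⟨a - 1, by omega⟩
      rw [h1 i b (by omega)]
      rcases Nat.eq_zero_or_pos i with rfl | hi
      · rw [coeff_X_mul_zero]
        simp [pow_succ]
      · obtain ⟨j, rfl⟩ : ∃ j, i = j + 1 := ⟨i - 1, by omega⟩
        rw [coeff_X_mul, h2 j (b + 1) (by omega)]
        have e : (j + 1 + (b + 1)).choose (b + 1) =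
            (j + 1 + b).choose b + (j + (b + 1)).choose (b + 1) := by
          have : j + 1 + (b + 1) = (j + 1 + b) + 1 := by ring
          rw [this, Nat.choose_succ_succ]
          congr 2
          ring
        rw [e]
        push_cast
        ring

/-! ### Products of univariate polynomials in separate variables -/

/-- `u(x) v(y) w(z)`. -/
noncomputable def P (u v w : ℤ[X]) : MvPolynomial (Fin 3) ℤ :=
  Polynomial.aeval (MvPolynomial.X 0) u * Polynomial.aeval (MvPolynomial.X 1) v *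
    Polynomial.aeval (MvPolynomial.X 2) w

/-- The exponent vector `(i, j, k)`. -/
noncomputable def mon (i j k : ℕ) : Fin 3 →₀ ℕ :=
  Finsupp.single 0 i + Finsupp.single 1 j + Finsupp.single 2 k

theorem mon_inj {i j k i' j' k' : ℕ} (h : mon i j k = mon i' j' k') :
    i = i' ∧ j = j' ∧ k = k' := by
  have h0 := DFunLike.congr_fun h 0
  have h1 := DFunLike.congr_fun h 1
  have h2 := DFunLike.congr_fun h 2
  simp [mon] at h0 h1 h2
  exact ⟨h0, h1, h2⟩

theorem P_monomial (i j k : ℕ) (a b c : ℤ) :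
    P (Polynomial.monomial i a) (Polynomial.monomial j b) (Polynomial.monomial k c) =
      MvPolynomial.monomial (mon i j k) (a * b * c) := by
  rw [P, Polynomial.aeval_monomial, Polynomial.aeval_monomial, Polynomial.aeval_monomial]
  have e : MvPolynomial.monomial (mon i j k) (a * b * c) =
      MvPolynomial.C a * MvPolynomial.C b * MvPolynomial.C c *
        (MvPolynomial.X 0 ^ i * MvPolynomial.X 1 ^ j * MvPolynomial.X 2 ^ k) := by
    rw [MvPolynomial.X_pow_eq_monomial, MvPolynomial.X_pow_eq_monomial,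
      MvPolynomial.X_pow_eq_monomial, MvPolynomial.monomial_mul, MvPolynomial.monomial_mul,
      ← MvPolynomial.C_mul, ← MvPolynomial.C_mul, MvPolynomial.C_mul_monomial]
    simp [mon]
  rw [e, MvPolynomial.algebraMap_eq]
  ring

theorem P_coeff (u v w : ℤ[X]) (i j k : ℕ) :
    (P u v w).coeff (mon i j k) = u.coeff i * v.coeff j * w.coeff k := by
  induction u using Polynomial.induction_on' with
  | add p q hp hq =>
    have : P (p + q) v w = P p v w + P q v w := by simp [P, add_mul]
    rw [this, MvPolynomial.coeff_add, hp, hq, coeff_add]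
    ring
  | monomial a x =>
    induction v using Polynomial.induction_on' with
    | add p q hp hq =>
      have : P (Polynomial.monomial a x) (p + q) w =
          P (Polynomial.monomial a x) p w + P (Polynomial.monomial a x) q w := by
        simp [P, add_mul, mul_add]
      rw [this, MvPolynomial.coeff_add, hp, hq, coeff_add]
      ring
    | monomial b y =>
      induction w using Polynomial.induction_on' with
      | add p q hp hq =>
        have : P (Polynomial.monomial a x) (Polynomial.monomial b y) (p + q) =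
            P (Polynomial.monomial a x) (Polynomial.monomial b y) p +
              P (Polynomial.monomial a x) (Polynomial.monomial b y) q := by
          simp [P, mul_add]
        rw [this, MvPolynomial.coeff_add, hp, hq, coeff_add]
        ring
      | monomial c z =>
        rw [P_monomial, MvPolynomial.coeff_monomial, coeff_monomial, coeff_monomial,
          coeff_monomial]
        by_cases h : mon a b c = mon i j k
        · obtain ⟨rfl, rfl, rfl⟩ := mon_inj h
          simp
        · rw [if_neg h]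
          by_cases h1 : a = i
          · by_cases h2 : b = j
            · by_cases h3 : c = k
              · subst h1 h2 h3
                exact absurd rfl h
              · simp [h3]
            · simp [h2]
          · simp [h1]

/-! ### The word and its trace -/

/-- The word `a ^ p b ^ q (a b) ^ r`. -/
def word (p q r : ℕ) : List (Fin 2 × Bool) :=
  List.replicate p (0, true) ++ List.replicate q (1, true) ++
    (List.replicate r [((0 : Fin 2), true), (1, true)]).flatten

theorem word_length (p q r : ℕ) : (word p q r).length = p + q + 2 * r := by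
  simp [word]
  ring

theorem word_true (p q r : ℕ) : ∀ t ∈ word p q r, t.2 = true := by
  intro t ht
  simp only [word, List.mem_append, List.mem_replicate, List.mem_flatten] at ht
  rcases ht with (⟨_, rfl⟩ | ⟨_, rfl⟩) | ⟨l, ⟨_, rfl⟩, h⟩
  · rfl
  · rfl
  · simp at h
    rcases h with rfl | rfl <;> rfl

theorem cyc_of_true {L : List (Fin 2 × Bool)} (h : ∀ t ∈ L, t.2 = true) :
    FreeGroup.IsCyclicallyReduced L := by
  refine ⟨?_, fun a ha b hb _ => ?_⟩
  · unfold FreeGroup.IsReduced
    refine List.Pairwise.isChain (List.pairwise_of_forall_mem_list ?_)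
    intro a ha b hb _
    rw [h a ha, h b hb]
  · rw [h a (List.mem_of_getLast? ha), h b (List.mem_of_head? hb)]

theorem ev_word (A B : SL2) (p q r : ℕ) :
    ev A B (FreeGroup.mk (word p q r)) = A ^ p * B ^ q * (A * B) ^ r := by
  have key : ∀ r : ℕ, ev A B (FreeGroup.mk
      (List.replicate r [((0 : Fin 2), true), (1, true)]).flatten) = (A * B) ^ r := by
    intro r
    induction r with
    | zero => simp [← FreeGroup.one_eq_mk]
    | succ r ih =>
      rw [List.replicate_succ, List.flatten_cons, ← FreeGroup.mul_mk, map_mul, ih, pow_succ']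
      congr 1
      simp [ev, FreeGroup.lift_mk]
  rw [word, ← FreeGroup.mul_mk, ← FreeGroup.mul_mk, map_mul, map_mul, key]
  congr 2
  · simp [ev, FreeGroup.lift_mk]
  · simp [ev, FreeGroup.lift_mk]

theorem pow_eq (A : SL2) (n : ℕ) : (A ^ (n + 1)).1 =
    Polynomial.aeval (tr A) (s (n + 1)) • A.1 -
      Polynomial.aeval (tr A) (s n) • (1 : Matrix (Fin 2) (Fin 2) ℂ) := by
  induction n with
  | zero => simp [s_zero, s_one]
  | succ n ih =>
    have e : (A ^ (n + 1 + 1)).1 = (A ^ (n + 1)).1 * A.1 := by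
      rw [pow_succ]
      rfl
    rw [e, ih, s_add_two, Matrix.sub_mul, Matrix.smul_mul, Matrix.smul_mul, sq_eq,
      Matrix.one_mul, map_sub, map_mul, Polynomial.aeval_X]
    module

theorem trace_eq (A B : SL2) (α α' β β' γ γ' : ℂ) :
    ((α • A.1 - α' • (1 : Matrix (Fin 2) (Fin 2) ℂ)) * (β • B.1 - β' • 1) *
      (γ • (A * B).1 - γ' • 1)).trace =
    α * β * γ * (tr (A * B) ^ 2 - 2) - α * β * γ' * tr (A * B) -
      α * β' * γ * (tr A * tr (A * B) - tr B) + α * β' * γ' * tr A -
      α' * β * γ * (tr B * tr (A * B) - tr A) + α' * β * γ' * tr B +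
      α' * β' * γ * tr (A * B) - 2 * (α' * β' * γ') := by
  have e0 : (A * B).1 = A.1 * B.1 := rfl
  have t1 : (A.1 * B.1).trace = tr (A * B) := rfl
  have t2 : A.1.trace = tr A := rfl
  have t3 : B.1.trace = tr B := rfl
  have t4 : (A.1 * B.1 * (A.1 * B.1)).trace = tr (A * B) ^ 2 - 2 := by
    have h := sq_eq (A * B)
    rw [e0] at h
    rw [h, Matrix.trace_sub, Matrix.trace_smul, t1, Matrix.trace_one, Fintype.card_fin,
      smul_eq_mul]
    push_cast
    ring
  have t5 : (A.1 * (A.1 * B.1)).trace = tr A * tr (A * B) - tr B := by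
    rw [← Matrix.mul_assoc, sq_eq, Matrix.sub_mul, Matrix.smul_mul, Matrix.one_mul,
      Matrix.trace_sub, Matrix.trace_smul, t1, t3, smul_eq_mul]
  have t6 : (B.1 * (A.1 * B.1)).trace = tr B * tr (A * B) - tr A := by
    rw [Matrix.trace_mul_comm, Matrix.mul_assoc, sq_eq, Matrix.mul_sub, Matrix.mul_smul,
      Matrix.mul_one, Matrix.trace_sub, Matrix.trace_smul, t1, t2, smul_eq_mul]
  simp only [e0, Matrix.sub_mul, Matrix.mul_sub, Matrix.smul_mul, Matrix.mul_smul,
    Matrix.one_mul, Matrix.mul_one, Matrix.trace_sub, Matrix.trace_smul, t1, t2, t3, t4, t5, t6,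
    Matrix.trace_one, Fintype.card_fin, smul_eq_mul]
  push_cast
  ring

/-- The Fricke polynomial of `a ^ (p + 1) b ^ (q + 1) (a b) ^ (r + 1)`. -/
noncomputable def fr (p q r : ℕ) : MvPolynomial (Fin 3) ℤ :=
  P (s (p + 1)) (s (q + 1)) (X ^ 2 * s (r + 1)) - 2 * P (s (p + 1)) (s (q + 1)) (s (r + 1)) -
    P (s (p + 1)) (s (q + 1)) (X * s r) -
    P (X * s (p + 1)) (s q) (X * s (r + 1)) + P (s (p + 1)) (X * s q) (s (r + 1)) +
    P (X * s (p + 1)) (s q) (s r) -
    P (s p) (X * s (q + 1)) (X * s (r + 1)) + P (X * s p) (s (q + 1)) (s (r + 1)) +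
    P (s p) (X * s (q + 1)) (s r) + P (s p) (s q) (X * s (r + 1)) -
    2 * P (s p) (s q) (s r)

theorem aeval_P (x y z : ℂ) (u v w : ℤ[X]) : MvPolynomial.aeval ![x, y, z] (P u v w) =
    Polynomial.aeval x u * Polynomial.aeval y v * Polynomial.aeval z w := by
  rw [P, map_mul, map_mul, ← Polynomial.aeval_algHom_apply, ← Polynomial.aeval_algHom_apply,
    ← Polynomial.aeval_algHom_apply, MvPolynomial.aeval_X, MvPolynomial.aeval_X,
    MvPolynomial.aeval_X]
  rfl

theorem isFricke_fr (p q r : ℕ) :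
    IsFricke (FreeGroup.mk (word (p + 1) (q + 1) (r + 1))) (fr p q r) := by
  intro A B
  have e : (A ^ (p + 1) * B ^ (q + 1) * (A * B) ^ (r + 1)).1 =
      (A ^ (p + 1)).1 * (B ^ (q + 1)).1 * ((A * B) ^ (r + 1)).1 := rfl
  rw [ev_word, tr, e, pow_eq, pow_eq, pow_eq, trace_eq, fr]
  simp only [map_add, map_sub, map_mul, aeval_P, map_ofNat, Polynomial.aeval_X, map_pow]
  ring

/-! ### The coefficients -/

theorem coeff_fr (i j k a b c : ℕ) :
    (fr (i + 1 + 2 * a) (j + 1 + 2 * b) (k + 2 + 2 * c)).coeff (mon (i + 1) (j + 1) (k + 2)) =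
    (-1) ^ (a + b + c + 1) *
      (((i + 1 + a).choose a : ℤ) * ((j + 1 + b).choose b : ℤ) *
        (((k + (c + 1)).choose (c + 1) : ℤ) + 2 * ((k + 2 + c).choose c : ℤ) +
          ((k + 1 + c).choose c : ℤ)) -
      ((i + 1 + a).choose a : ℤ) * ((j + b).choose b : ℤ) * ((k + 2 + c).choose c : ℤ) -
      ((i + a).choose a : ℤ) * ((j + 1 + b).choose b : ℤ) * ((k + 2 + c).choose c : ℤ)) := by
  have two : ∀ f : MvPolynomial (Fin 3) ℤ, ∀ m, (2 * f).coeff m = 2 * f.coeff m := by
    intro f m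
    rw [two_mul, MvPolynomial.coeff_add, two_mul]
  rw [fr]
  simp only [MvPolynomial.coeff_add, MvPolynomial.coeff_sub, two, P_coeff]
  have x1 : ∀ (f : ℤ[X]) (n : ℕ), (X ^ 2 * f).coeff (n + 2) = f.coeff n := by
    intro f n
    rw [pow_two, mul_assoc, coeff_X_mul, coeff_X_mul]
  have p1 := s_coeff (i + 1 + 2 * a + 1) (i + 1) a rfl
  have p2 := s_coeff_even (i + 1 + 2 * a + 1) i (a + 1) (by ring)
  have p3 := s_coeff_even (i + 1 + 2 * a) (i + 1) a rfl
  have p4 := s_coeff (i + 1 + 2 * a) i a (by ring)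
  have q1 := s_coeff (j + 1 + 2 * b + 1) (j + 1) b rfl
  have q2 := s_coeff_even (j + 1 + 2 * b + 1) j (b + 1) (by ring)
  have q3 := s_coeff_even (j + 1 + 2 * b) (j + 1) b rfl
  have q4 := s_coeff (j + 1 + 2 * b) j b (by ring)
  have r1 := s_coeff (k + 2 + 2 * c + 1) (k + 2) c rfl
  have r2 := s_coeff_even (k + 2 + 2 * c + 1) (k + 1) (c + 1) (by ring)
  have r3 := s_coeff_even (k + 2 + 2 * c) (k + 2) c rfl
  have r4 := s_coeff (k + 2 + 2 * c) (k + 1) c (by ring)
  have r5 := s_coeff (k + 2 + 2 * c + 1) k (c + 1) (by ring)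
  simp only [x1, coeff_X_mul, p1, p2, p3, p4, q1, q2, q3, q4, r1, r2, r3, r4, r5,
    show k + 2 = k + 1 + 1 from rfl]
  ring

theorem coeff_fr_ge (i j k a b c : ℕ) :
    (i + 1 + a).choose a ≤
    ((fr (i + 1 + 2 * a) (j + 1 + 2 * b) (k + 2 + 2 * c)).coeff
      (mon (i + 1) (j + 1) (k + 2))).natAbs := by
  rw [coeff_fr, Int.natAbs_mul, Int.natAbs_pow, Int.natAbs_neg, Int.natAbs_one, one_pow, one_mul]
  have h1 : (i + a).choose a ≤ (i + 1 + a).choose a := Nat.choose_le_choose _ (by omega)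
  have h2 : (j + b).choose b ≤ (j + 1 + b).choose b := Nat.choose_le_choose _ (by omega)
  have h3 : 1 ≤ (k + 1 + c).choose c := Nat.choose_pos (by omega)
  have h4 : 1 ≤ (j + 1 + b).choose b := Nat.choose_pos (by omega)
  generalize (i + 1 + a).choose a = u at *
  generalize (i + a).choose a = u' at *
  generalize (j + 1 + b).choose b = v at *
  generalize (j + b).choose b = v' at *
  generalize (k + 1 + c).choose c = w at *
  generalize (k + 2 + c).choose c = w' at *
  generalize (k + (c + 1)).choose (c + 1) = w'' at *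
  have e1 : u * v' * w' ≤ u * v * w' := Nat.mul_le_mul_right _ (Nat.mul_le_mul_left _ h2)
  have e2 : u' * v * w' ≤ u * v * w' := Nat.mul_le_mul_right _ (Nat.mul_le_mul_right _ h1)
  have e3 : u ≤ u * v * w := by
    calc u = u * 1 * 1 := by ring
      _ ≤ u * v * w := Nat.mul_le_mul (Nat.mul_le_mul_left _ h4) h3
  have key : (u : ℤ) ≤ (u : ℤ) * v * (w'' + 2 * w' + w) - u * v' * w' - u' * v * w' := by
    have e1' : (u : ℤ) * v' * w' ≤ u * v * w' := by exact_mod_cast e1
    have e2' : (u' : ℤ) * v * w' ≤ u * v * w' := by exact_mod_cast e2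
    have e3' : (u : ℤ) ≤ u * v * w := by exact_mod_cast e3
    have e4' : (0 : ℤ) ≤ u * v * w'' := by positivity
    nlinarith
  omega

theorem choose_ge (i : ℕ) : ∀ a, a ≤ i → 2 ^ a ≤ (i + a).choose a := by
  intro a
  induction a with
  | zero => intro _; simp
  | succ a ih =>
    intro h
    have h1 := ih (by omega)
    have h2 := Nat.add_one_mul_choose_eq (i + a) a
    have h3 : 2 * (a + 1) * (i + a).choose a ≤ (i + a + 1).choose (a + 1) * (a + 1) := by
      rw [← h2]
      exact Nat.mul_le_mul_right _ (by omega)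
    have h4 : 2 * (i + a).choose a ≤ (i + a + 1).choose (a + 1) := by
      have : 2 * (i + a).choose a * (a + 1) ≤ (i + a + 1).choose (a + 1) * (a + 1) := by
        calc 2 * (i + a).choose a * (a + 1) = 2 * (a + 1) * (i + a).choose a := by ring
          _ ≤ _ := h3
      exact Nat.le_of_mul_le_mul_right this (by omega)
    calc 2 ^ (a + 1) = 2 * 2 ^ a := by ring
      _ ≤ 2 * (i + a).choose a := Nat.mul_le_mul_left _ h1
      _ ≤ (i + (a + 1)).choose (a + 1) := h4

/-- Many large coefficients. -/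
theorem bitSize_fr {p q r t : ℕ} (hp : 6 * t ≤ p) (hq : 6 * t ≤ q) (hr : 6 * t ≤ r) :
    t ^ 4 ≤ bitSize (fr p q r) := by
  rcases Nat.eq_zero_or_pos t with rfl | ht
  · simp
  let T : Finset (ℕ × ℕ × ℕ) := Finset.Ico t (2 * t) ×ˢ Finset.range t ×ˢ Finset.range t
  let μ : ℕ × ℕ × ℕ → (Fin 3 →₀ ℕ) := fun x => mon (p - 2 * x.1) (q - 2 * x.2.1) (r - 2 * x.2.2)
  have hT : ∀ x ∈ T, (t ≤ x.1 ∧ x.1 < 2 * t) ∧ x.2.1 < t ∧ x.2.2 < t := by
    intro x hx
    simpa [T] using hx
  have hinj : Set.InjOn μ T := by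
    intro x hx y hy hxy
    obtain ⟨h1, h2, h3⟩ := mon_inj hxy
    have a1 := hT x hx
    have a2 := hT y hy
    refine Prod.ext ?_ (Prod.ext ?_ ?_) <;> omega
  have hval : ∀ x ∈ T, 2 ^ t ≤ ((fr p q r).coeff (μ x)).natAbs := by
    rintro ⟨a, b, c⟩ hx
    obtain ⟨⟨h1, h2⟩, h3, h4⟩ := hT _ hx
    simp only at h1 h2 h3 h4
    obtain ⟨i, hi⟩ : ∃ i, p = i + 1 + 2 * a := ⟨p - 2 * a - 1, by omega⟩
    obtain ⟨j, hj⟩ : ∃ j, q = j + 1 + 2 * b := ⟨q - 2 * b - 1, by omega⟩
    obtain ⟨k, hk⟩ : ∃ k, r = k + 2 + 2 * c := ⟨r - 2 * c - 2, by omega⟩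
    have e : μ (a, b, c) = mon (i + 1) (j + 1) (k + 2) := by
      simp only [μ]
      congr 1 <;> omega
    rw [e]
    have h5 := coeff_fr_ge i j k a b c
    rw [← hi, ← hj, ← hk] at h5
    refine le_trans ?_ h5
    refine le_trans (Nat.pow_le_pow_right (by norm_num) h1) (choose_ge (i + 1) a (by omega))
  have hsub : T.image μ ⊆ (fr p q r).support := by
    intro m hm
    obtain ⟨x, hx, rfl⟩ := Finset.mem_image.1 hm
    rw [MvPolynomial.mem_support_iff]
    intro h0
    have := hval x hx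
    rw [h0, Int.natAbs_zero] at this
    have : 0 < 2 ^ t := by positivity
    omega
  calc t ^ 4 = T.card * t := by
        simp only [T, Finset.card_product, Nat.card_Ico, Finset.card_range]
        have : 2 * t - t = t := by omega
        rw [this]
        ring
    _ = ∑ _x ∈ T, t := by rw [Finset.sum_const, smul_eq_mul]
    _ ≤ ∑ x ∈ T, ((fr p q r).coeff (μ x)).natAbs.size := by
        refine Finset.sum_le_sum fun x hx => ?_
        exact (Nat.lt_size.2 (hval x hx)).le
    _ = ∑ m ∈ T.image μ, ((fr p q r).coeff m).natAbs.size := by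
        rw [Finset.sum_image hinj]
    _ ≤ bitSize (fr p q r) := Finset.sum_le_sum_of_subset hsub

/-- The lower bound. -/
theorem exists_lower {n : ℕ} (hn : 54 ≤ n) : ∃ w f, HasCycLen w n ∧ IsFricke w f ∧
    n ^ 4 ≤ 48 ^ 4 * bitSize f := by
  obtain ⟨m, hm⟩ : ∃ m, m = n / 4 := ⟨_, rfl⟩
  obtain ⟨t, ht⟩ : ∃ t, t = (m - 1) / 6 := ⟨_, rfl⟩
  obtain ⟨p, hp⟩ : ∃ p, n = 3 * m + (p + 1) := ⟨n - 3 * m - 1, by omega⟩
  obtain ⟨q, hq⟩ : ∃ q, m = q + 1 := ⟨m - 1, by omega⟩
  refine ⟨FreeGroup.mk (word (p + 1) (q + 1) (q + 1)), fr p q q,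
    ⟨word (p + 1) (q + 1) (q + 1), cyc_of_true (word_true _ _ _), ?_, IsConj.refl _⟩,
    isFricke_fr p q q, ?_⟩
  · rw [word_length]
    omega
  · have h1 : t ^ 4 ≤ bitSize (fr p q q) :=
      bitSize_fr (by omega) (by omega) (by omega)
    have h2 : n ≤ 48 * t := by omega
    calc n ^ 4 ≤ (48 * t) ^ 4 := Nat.pow_le_pow_left h2 4
      _ = 48 ^ 4 * t ^ 4 := by ring
      _ ≤ 48 ^ 4 * bitSize (fr p q q) := Nat.mul_le_mul_left _ h1

end Pool.Agent.Q227.FR
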