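import Pool.Agent.Q227.FR.Defs

/-!
# Existence, uniqueness and the upper bound for Fricke trace polynomials
-/

set_option autoImplicit false

namespace Pool.Agent.Q227.FR

open Matrix

/-! ### Uniqueness -/

theorem exists_pair (x y z : ℂ) : ∃ A B : SL2, tr A = x ∧ tr B = y ∧ tr (A * B) = z := by
  obtain ⟨u, hu⟩ : ∃ u : ℂ, u * u - z * u + 1 = 0 := by
    obtain ⟨s, hs⟩ := IsAlgClosed.exists_pow_nat_eq (z ^ 2 - 4) (n := 2) (by norm_num)
    refine ⟨(z + s) / 2, ?_⟩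
    linear_combination (1 / 4 : ℂ) * hs
  have hu0 : u ≠ 0 := by
    rintro rfl
    norm_num at hu
  let A : SL2 := ⟨!![x, -1; 1, 0], by simp [Matrix.det_fin_two]⟩
  let B : SL2 := ⟨!![0, u; -1 / u, y], by
    rw [Matrix.det_fin_two]
    simp
    field_simp⟩
  refine ⟨A, B, ?_, ?_, ?_⟩
  · simp [tr, A, Matrix.trace_fin_two]
  · simp [tr, B, Matrix.trace_fin_two]
  · have h : ((A * B : SL2) : Matrix (Fin 2) (Fin 2) ℂ) =
        !![x, -1; 1, 0] * !![0, u; -1 / u, y] := rfl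
    rw [tr, h, Matrix.trace_fin_two]
    simp [Matrix.mul_apply, Fin.sum_univ_two]
    field_simp
    linear_combination hu

theorem unique {w : FreeGroup (Fin 2)} {f g : MvPolynomial (Fin 3) ℤ} (hf : IsFricke w f)
    (hg : IsFricke w g) : f = g := by
  have h : MvPolynomial.map (Int.castRingHom ℂ) f = MvPolynomial.map (Int.castRingHom ℂ) g := by
    refine MvPolynomial.funext fun v => ?_
    obtain ⟨A, B, h1, h2, h3⟩ := exists_pair (v 0) (v 1) (v 2)
    have hv : ![tr A, tr B, tr (A * B)] = v := by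
      funext i
      fin_cases i <;> simp [h1, h2, h3]
    have e := (hf A B).symm.trans (hg A B)
    rw [hv] at e
    simpa [MvPolynomial.aeval_def, MvPolynomial.eval_map, algebraMap_int_eq] using e
  exact MvPolynomial.map_injective _ (Int.cast_injective) h

/-! ### The action of the letters on `1, A, B, AB` -/

/-- Bounded total degree and bounded coefficients. -/
def Bd (D N : ℕ) (f : MvPolynomial (Fin 3) ℤ) : Prop :=
  f.totalDegree ≤ D ∧ ∀ m, (f.coeff m).natAbs ≤ N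

theorem Bd.mono {D N D' N' : ℕ} {f : MvPolynomial (Fin 3) ℤ} (h : Bd D N f) (h1 : D ≤ D')
    (h2 : N ≤ N') : Bd D' N' f :=
  ⟨h.1.trans h1, fun m => (h.2 m).trans h2⟩

theorem Bd.add {D N M : ℕ} {f g : MvPolynomial (Fin 3) ℤ} (hf : Bd D N f) (hg : Bd D M g) :
    Bd D (N + M) (f + g) :=
  ⟨(MvPolynomial.totalDegree_add f g).trans (max_le hf.1 hg.1), fun m => by
    rw [MvPolynomial.coeff_add]
    exact (Int.natAbs_add_le _ _).trans (add_le_add (hf.2 m) (hg.2 m))⟩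

theorem Bd.neg {D N : ℕ} {f : MvPolynomial (Fin 3) ℤ} (hf : Bd D N f) : Bd D N (-f) :=
  ⟨by rw [MvPolynomial.totalDegree_neg]; exact hf.1, fun m => by
    rw [MvPolynomial.coeff_neg, Int.natAbs_neg]
    exact hf.2 m⟩

theorem Bd.sub {D N M : ℕ} {f g : MvPolynomial (Fin 3) ℤ} (hf : Bd D N f) (hg : Bd D M g) :
    Bd D (N + M) (f - g) := by
  rw [sub_eq_add_neg]
  exact hf.add hg.neg

theorem Bd.X {D N : ℕ} {f : MvPolynomial (Fin 3) ℤ} (i : Fin 3) (hf : Bd D N f) :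
    Bd (D + 1) N (MvPolynomial.X i * f) := by
  refine ⟨?_, fun m => ?_⟩
  · refine (MvPolynomial.totalDegree_mul _ _).trans ?_
    rw [MvPolynomial.totalDegree_X]
    have := hf.1
    omega
  · rw [MvPolynomial.coeff_X_mul']
    split_ifs
    · exact hf.2 _
    · simp

/-- A combination of `1, A, B, AB`. -/
structure Q where
  c1 : MvPolynomial (Fin 3) ℤ
  cA : MvPolynomial (Fin 3) ℤ
  cB : MvPolynomial (Fin 3) ℤ
  cAB : MvPolynomial (Fin 3) ℤ

namespace Q

def Bd (D N : ℕ) (q : Q) : Prop :=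
  FR.Bd D N q.c1 ∧ FR.Bd D N q.cA ∧ FR.Bd D N q.cB ∧ FR.Bd D N q.cAB

/-- The value of the combination at `A`, `B`. -/
noncomputable def val (A B : SL2) (q : Q) : Matrix (Fin 2) (Fin 2) ℂ :=
  MvPolynomial.aeval ![tr A, tr B, tr (A * B)] q.c1 • (1 : Matrix (Fin 2) (Fin 2) ℂ) +
  MvPolynomial.aeval ![tr A, tr B, tr (A * B)] q.cA • (A : Matrix (Fin 2) (Fin 2) ℂ) +
  MvPolynomial.aeval ![tr A, tr B, tr (A * B)] q.cB • (B : Matrix (Fin 2) (Fin 2) ℂ) +
  MvPolynomial.aeval ![tr A, tr B, tr (A * B)] q.cAB •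
    ((A : Matrix (Fin 2) (Fin 2) ℂ) * (B : Matrix (Fin 2) (Fin 2) ℂ))

noncomputable def mulA (q : Q) : Q where
  c1 := -q.cA + (MvPolynomial.X 2 * q.cB - MvPolynomial.X 0 * (MvPolynomial.X 1 * q.cB)) -
    MvPolynomial.X 1 * q.cAB
  cA := q.c1 + MvPolynomial.X 0 * q.cA + MvPolynomial.X 1 * q.cB + MvPolynomial.X 2 * q.cAB
  cB := MvPolynomial.X 0 * q.cB + q.cAB
  cAB := -q.cB

noncomputable def mulB (q : Q) : Q where
  c1 := -q.cB
  cA := -q.cAB
  cB := q.c1 + MvPolynomial.X 1 * q.cB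
  cAB := q.cA + MvPolynomial.X 1 * q.cAB

noncomputable def mulA' (q : Q) : Q where
  c1 := MvPolynomial.X 0 * q.c1 - q.mulA.c1
  cA := MvPolynomial.X 0 * q.cA - q.mulA.cA
  cB := MvPolynomial.X 0 * q.cB - q.mulA.cB
  cAB := MvPolynomial.X 0 * q.cAB - q.mulA.cAB

noncomputable def mulB' (q : Q) : Q where
  c1 := MvPolynomial.X 1 * q.c1 - q.mulB.c1
  cA := MvPolynomial.X 1 * q.cA - q.mulB.cA
  cB := MvPolynomial.X 1 * q.cB - q.mulB.cB
  cAB := MvPolynomial.X 1 * q.cAB - q.mulB.cAB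

theorem bd_mulA {D N : ℕ} {q : Q} (h : q.Bd D N) : q.mulA.Bd (D + 2) (4 * N) := by
  obtain ⟨h1, h2, h3, h4⟩ := h
  refine ⟨?_, ?_, ?_, ?_⟩
  · exact ((((h2.neg).mono (by omega : D ≤ D + 2) le_rfl).add
      (((h3.X 2).mono (by omega : D + 1 ≤ D + 2) le_rfl).sub ((h3.X 1).X 0))).sub
      ((h4.X 1).mono (by omega : D + 1 ≤ D + 2) le_rfl)).mono le_rfl (by omega)
  · exact ((((h1.mono (by omega : D ≤ D + 1) le_rfl).add (h2.X 0)).add (h3.X 1)).add
      (h4.X 2)).mono (by omega) (by omega)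
  · exact ((h3.X 0).add (h4.mono (by omega : D ≤ D + 1) le_rfl)).mono (by omega) (by omega)
  · exact h3.neg.mono (by omega) (by omega)

theorem bd_mulB {D N : ℕ} {q : Q} (h : q.Bd D N) : q.mulB.Bd (D + 2) (4 * N) := by
  obtain ⟨h1, h2, h3, h4⟩ := h
  refine ⟨?_, ?_, ?_, ?_⟩
  · exact h3.neg.mono (by omega) (by omega)
  · exact h4.neg.mono (by omega) (by omega)
  · exact ((h1.mono (by omega : D ≤ D + 1) le_rfl).add (h3.X 1)).mono (by omega) (by omega)
  · exact ((h2.mono (by omega : D ≤ D + 1) le_rfl).add (h4.X 1)).mono (by omega) (by omega)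

theorem bd_aux {D N : ℕ} {f g : MvPolynomial (Fin 3) ℤ} (i : Fin 3) (hf : FR.Bd D N f)
    (hg : FR.Bd (D + 2) (4 * N) g) : FR.Bd (D + 2) (5 * N) (MvPolynomial.X i * f - g) :=
  (((hf.X i).mono (by omega : D + 1 ≤ D + 2) le_rfl).sub hg).mono le_rfl (by omega)

theorem bd_mulA' {D N : ℕ} {q : Q} (h : q.Bd D N) : q.mulA'.Bd (D + 2) (5 * N) := by
  have h' := bd_mulA h
  exact ⟨bd_aux 0 h.1 h'.1, bd_aux 0 h.2.1 h'.2.1, bd_aux 0 h.2.2.1 h'.2.2.1,
    bd_aux 0 h.2.2.2 h'.2.2.2⟩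

theorem bd_mulB' {D N : ℕ} {q : Q} (h : q.Bd D N) : q.mulB'.Bd (D + 2) (5 * N) := by
  have h' := bd_mulB h
  exact ⟨bd_aux 1 h.1 h'.1, bd_aux 1 h.2.1 h'.2.1, bd_aux 1 h.2.2.1 h'.2.2.1,
    bd_aux 1 h.2.2.2 h'.2.2.2⟩

end Q

/-! ### Matrix identities -/

theorem det_eq (A : SL2) : A.1 0 0 * A.1 1 1 - A.1 0 1 * A.1 1 0 = 1 := by
  have := A.2
  rwa [Matrix.det_fin_two] at this

theorem tr_eq (A : SL2) : tr A = A.1 0 0 + A.1 1 1 := by
  rw [tr, Matrix.trace_fin_two]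

theorem tr_mul_eq (A B : SL2) : tr (A * B) =
    A.1 0 0 * B.1 0 0 + A.1 0 1 * B.1 1 0 + (A.1 1 0 * B.1 0 1 + A.1 1 1 * B.1 1 1) := by
  rw [tr_eq]
  have h : (A * B).1 = A.1 * B.1 := rfl
  rw [h]
  simp [Matrix.mul_apply, Fin.sum_univ_two]

/-- `A ^ 2 = tr A • A - 1`. -/
theorem sq_eq (A : SL2) : A.1 * A.1 = tr A • A.1 - 1 := by
  have h := det_eq A
  rw [tr_eq]
  ext i j
  fin_cases i <;> fin_cases j <;>
    simp [Matrix.mul_apply, Fin.sum_univ_two] <;> first | ring1 | linear_combination -h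

theorem inv_eq (A : SL2) : (A⁻¹).1 = tr A • (1 : Matrix (Fin 2) (Fin 2) ℂ) - A.1 := by
  have h : (A⁻¹).1 = A.1.adjugate := rfl
  rw [h, Matrix.adjugate_fin_two, tr_eq]
  ext i j
  fin_cases i <;> fin_cases j <;> simp

/-- `B A = - A B + tr B • A + tr A • B + (tr AB - tr A tr B)`. -/
theorem swap_eq (A B : SL2) : B.1 * A.1 =
    -(A.1 * B.1) + tr B • A.1 + tr A • B.1 +
      (tr (A * B) - tr A * tr B) • (1 : Matrix (Fin 2) (Fin 2) ℂ) := by
  rw [tr_mul_eq, tr_eq, tr_eq]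
  ext i j
  fin_cases i <;> fin_cases j <;>
    simp [Matrix.mul_apply, Fin.sum_univ_two] <;> ring

theorem val_mulA (A B : SL2) (q : Q) : (q.mulA).val A B = q.val A B * A.1 := by
  have h1 := sq_eq A
  have h2 := swap_eq A B
  have h3 : A.1 * B.1 * A.1 = tr (A * B) • A.1 + B.1 - tr B • (1 : Matrix (Fin 2) (Fin 2) ℂ) := by
    rw [Matrix.mul_assoc, h2]
    simp only [Matrix.mul_add, Matrix.mul_neg, Matrix.mul_smul, ← Matrix.mul_assoc, h1,
      Matrix.mul_one, Matrix.sub_mul, Matrix.smul_mul, Matrix.one_mul]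
    module
  simp only [Q.val, Q.mulA, map_add, map_sub, map_mul, map_neg, MvPolynomial.aeval_X,
    Matrix.add_mul, Matrix.smul_mul, Matrix.one_mul, h1, h2, h3]
  simp only [Matrix.cons_val_zero, Matrix.cons_val_one, Matrix.cons_val]
  module

theorem val_mulB (A B : SL2) (q : Q) : (q.mulB).val A B = q.val A B * B.1 := by
  have h1 := sq_eq B
  have h3 : A.1 * B.1 * B.1 = tr B • (A.1 * B.1) - A.1 := by
    rw [Matrix.mul_assoc, h1]
    simp only [Matrix.mul_sub, Matrix.mul_smul, Matrix.mul_one]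
  simp only [Q.val, Q.mulB, map_add, map_mul, map_neg, MvPolynomial.aeval_X,
    Matrix.add_mul, Matrix.smul_mul, Matrix.one_mul, h1, h3]
  simp only [Matrix.cons_val_one, Matrix.cons_val_zero]
  module

theorem val_mulA' (A B : SL2) (q : Q) : (q.mulA').val A B = q.val A B * (A⁻¹).1 := by
  rw [inv_eq, Matrix.mul_sub, ← val_mulA]
  simp only [Q.val, Q.mulA', map_sub, map_mul, MvPolynomial.aeval_X, Matrix.mul_smul,
    Matrix.mul_one, Matrix.cons_val_zero]
  module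

theorem val_mulB' (A B : SL2) (q : Q) : (q.mulB').val A B = q.val A B * (B⁻¹).1 := by
  rw [inv_eq, Matrix.mul_sub, ← val_mulB]
  simp only [Q.val, Q.mulB', map_sub, map_mul, MvPolynomial.aeval_X, Matrix.mul_smul,
    Matrix.mul_one, Matrix.cons_val_one, Matrix.cons_val_zero]
  module

/-- The matrix of a word. -/
theorem exists_Q (L : List (Fin 2 × Bool)) : ∃ q : Q, q.Bd (2 * L.length) (5 ^ L.length) ∧
    ∀ A B : SL2, (ev A B (FreeGroup.mk L)).1 = q.val A B := by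
  induction L using List.reverseRecOn with
  | nil =>
    refine ⟨⟨1, 0, 0, 0⟩, ⟨⟨by simp, fun m => ?_⟩, ⟨by simp, by simp⟩, ⟨by simp, by simp⟩,
      ⟨by simp, by simp⟩⟩, fun A B => ?_⟩
    · rw [MvPolynomial.coeff_one]
      split_ifs <;> simp
    · rw [← FreeGroup.one_eq_mk, map_one]
      simp [Q.val]
  | append_singleton L t ih =>
    obtain ⟨q, hq, hv⟩ := ih
    have hm : ∀ A B : SL2, (ev A B (FreeGroup.mk (L ++ [t]))).1 =
        q.val A B * (ev A B (FreeGroup.mk [t])).1 := by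
      intro A B
      rw [← FreeGroup.mul_mk, map_mul, ← hv]
      rfl
    have e1 : 2 * (L ++ [t]).length = 2 * L.length + 2 := by simp; ring
    have e2 : 5 ^ (L ++ [t]).length = 5 * 5 ^ L.length := by simp [pow_succ]; ring
    rw [e1, e2]
    have m4 : 4 * 5 ^ L.length ≤ 5 * 5 ^ L.length := Nat.mul_le_mul_right _ (by norm_num)
    obtain ⟨i, s⟩ := t
    fin_cases i <;> cases s
    · refine ⟨q.mulA', Q.bd_mulA' hq, fun A B => ?_⟩
      rw [hm, val_mulA']
      simp [ev, FreeGroup.lift_mk]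
    · refine ⟨q.mulA, ?_, fun A B => ?_⟩
      · have h := Q.bd_mulA hq
        exact ⟨h.1.mono le_rfl m4, h.2.1.mono le_rfl m4, h.2.2.1.mono le_rfl m4,
          h.2.2.2.mono le_rfl m4⟩
      · rw [hm, val_mulA]
        simp [ev, FreeGroup.lift_mk]
    · refine ⟨q.mulB', Q.bd_mulB' hq, fun A B => ?_⟩
      rw [hm, val_mulB']
      simp [ev, FreeGroup.lift_mk]
    · refine ⟨q.mulB, ?_, fun A B => ?_⟩
      · have h := Q.bd_mulB hq
        exact ⟨h.1.mono le_rfl m4, h.2.1.mono le_rfl m4, h.2.2.1.mono le_rfl m4,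
          h.2.2.2.mono le_rfl m4⟩
      · rw [hm, val_mulB]
        simp [ev, FreeGroup.lift_mk]

/-- Existence of the Fricke polynomial with bounds. -/
theorem exists_fricke (L : List (Fin 2 × Bool)) : ∃ f : MvPolynomial (Fin 3) ℤ,
    IsFricke (FreeGroup.mk L) f ∧ Bd (2 * L.length + 1) (5 * 5 ^ L.length) f := by
  obtain ⟨q, ⟨h1, h2, h3, h4⟩, hv⟩ := exists_Q L
  refine ⟨q.c1 + q.c1 + MvPolynomial.X 0 * q.cA + MvPolynomial.X 1 * q.cB +
    MvPolynomial.X 2 * q.cAB, fun A B => ?_, ?_⟩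
  · rw [tr, hv]
    have e1 : (A.1 * B.1).trace = tr (A * B) := rfl
    have e2 : A.1.trace = tr A := rfl
    have e3 : B.1.trace = tr B := rfl
    simp only [Q.val, Matrix.trace_add, Matrix.trace_smul, e1, e2, e3, Matrix.trace_one,
      Fintype.card_fin, map_add, map_mul, MvPolynomial.aeval_X, smul_eq_mul]
    simp only [Matrix.cons_val_zero, Matrix.cons_val_one, Matrix.cons_val]
    push_cast
    ring
  · have m1 : 2 * L.length ≤ 2 * L.length + 1 := by omega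
    exact (((((h1.mono m1 le_rfl).add (h1.mono m1 le_rfl)).add (h2.X 0)).add (h3.X 1)).add
      (h4.X 2)).mono le_rfl (by omega)

theorem isFricke_conj {w w' : FreeGroup (Fin 2)} (h : IsConj w w') {f : MvPolynomial (Fin 3) ℤ} :
    IsFricke w f ↔ IsFricke w' f := by
  obtain ⟨c, hc⟩ := isConj_iff.1 h
  have key : ∀ A B : SL2, tr (ev A B w') = tr (ev A B w) := by
    intro A B
    rw [← hc, map_mul, map_mul, map_inv]
    have e : ∀ P R : SL2, tr (P * R * P⁻¹) = tr R := by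
      intro P R
      have e1 : ((P * R * P⁻¹ : SL2) : Matrix (Fin 2) (Fin 2) ℂ) =
        P.1 * R.1 * (P⁻¹).1 := rfl
      have e2 : (P⁻¹).1 * P.1 = 1 := by
        have : (P⁻¹ * P).1 = (1 : SL2).1 := by rw [inv_mul_cancel]
        exact this
      rw [tr, e1, Matrix.trace_mul_comm, ← Matrix.mul_assoc, e2, Matrix.one_mul]
      rfl
    exact e _ _
  exact ⟨fun hf A B => (key A B).trans (hf A B), fun hf A B => (key A B).symm.trans (hf A B)⟩

/-- The bound for the size. -/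
theorem bitSize_le {D N : ℕ} {f : MvPolynomial (Fin 3) ℤ} (h : Bd D N f) :
    bitSize f ≤ (D + 1) ^ 3 * N.size := by
  have h1 : bitSize f ≤ ∑ _m ∈ f.support, N.size :=
    Finset.sum_le_sum fun m _ => Nat.size_le_size (h.2 m)
  rw [Finset.sum_const, smul_eq_mul] at h1
  refine h1.trans (Nat.mul_le_mul_right _ ?_)
  have h2 : f.support.card ≤ (Finset.univ : Finset (Fin 3 → Fin (D + 1))).card := by
    refine Finset.card_le_card_of_injOn
      (fun m i => ⟨min (m i) D, by omega⟩) (fun _ _ => Finset.mem_coe.2 (Finset.mem_univ _)) ?_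
    intro m hm m' hm' hmm
    have hb : ∀ m ∈ f.support, ∀ i, m i ≤ D := by
      intro m hm i
      refine le_trans ?_ ((MvPolynomial.le_totalDegree hm).trans h.1)
      exact Finsupp.le_degree i m
    ext i
    have := congrFun hmm i
    simp only [Fin.mk.injEq] at this
    have a1 := hb m (Finset.mem_coe.1 hm) i
    have a2 := hb m' (Finset.mem_coe.1 hm') i
    omega
  simpa using h2

theorem bitSize_upper {w : FreeGroup (Fin 2)} {n : ℕ} (hn : 1 ≤ n) (hw : HasCycLen w n)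
    {f : MvPolynomial (Fin 3) ℤ} (hf : IsFricke w f) : bitSize f ≤ 384 * n ^ 4 := by
  obtain ⟨L, _, hL, hc⟩ := hw
  obtain ⟨g, hg, hb⟩ := exists_fricke L
  have : f = g := unique ((isFricke_conj hc).2 hf) hg
  subst this
  rw [hL] at hb
  refine (bitSize_le hb).trans ?_
  have h1 : (5 * 5 ^ n).size ≤ 6 * n := by
    rw [Nat.size_le]
    calc 5 * 5 ^ n = 5 ^ (n + 1) := by rw [pow_succ]; ring
      _ < 8 ^ (n + 1) := Nat.pow_lt_pow_left (by norm_num) (by omega)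
      _ = 2 ^ (3 * (n + 1)) := by rw [pow_mul]; norm_num
      _ ≤ 2 ^ (6 * n) := Nat.pow_le_pow_right (by norm_num) (by omega)
  have h2 : (2 * n + 1 + 1) ^ 3 ≤ (4 * n) ^ 3 := Nat.pow_le_pow_left (by omega) 3
  calc (2 * n + 1 + 1) ^ 3 * (5 * 5 ^ n).size ≤ (4 * n) ^ 3 * (6 * n) := Nat.mul_le_mul h2 h1
    _ = 384 * n ^ 4 := by ring

end Pool.Agent.Q227.FR
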